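import Pool.Agent.Y734.I.GENX.Ultra

/-!
Job GENX (helper734, project Y734/I): the condition of general position, and the final statement;
adapted from the work of helper991 by helper809.
-/

set_option autoImplicit false

namespace Pool.Agent.Y734.I.GENX

open Pool.Agent.Y734 Pool.Agent.Y734.I MvPolynomial Finset Pool.Agent.Y660.QP

/-- the polynomial `Ψ` for the hyperplanes `f` -/
noncomputable def ren {N q n : ℕ} (Ψ : MvPolynomial (Fin (n + 1) × Fin (N + 1)) ℚ)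
    (f : Fin (n + 1) ↪ Fin q) : MvPolynomial (Fin q × Fin (N + 1)) ℚ :=
  rename (fun ij => (f ij.1, ij.2)) Ψ

theorem ren_ne {N q n : ℕ} {Ψ : MvPolynomial (Fin (n + 1) × Fin (N + 1)) ℚ} (hΨ : Ψ ≠ 0)
    (f : Fin (n + 1) ↪ Fin q) : ren Ψ f ≠ 0 := by
  unfold ren
  rw [Ne, map_eq_zero_iff _ (rename_injective _ _)]
  · exact hΨ
  · rintro ⟨a, b⟩ ⟨a', b'⟩ h
    simp only [Prod.mk.injEq, EmbeddingLike.apply_eq_iff_eq] at h
    rw [h.1, h.2]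

theorem gpx {N q n : ℕ} (𝓕 : Set (MvPolynomial (Fin (N + 1)) ℚ))
    {Ψ : MvPolynomial (Fin (n + 1) × Fin (N + 1)) ℚ} (hΨ : Psi n 𝓕 Ψ)
    (H : Fin q → Fin (N + 1) → ℚ)
    (h : ∀ f : Fin (n + 1) ↪ Fin q, eval (fun ij => H ij.1 ij.2) (ren Ψ f) ≠ 0) :
    GPX 𝓕 n H := by
  intro κ _ _ x hx hX B hB
  by_contra hcard
  push Not at hcard
  obtain ⟨e⟩ : Nonempty (Fin (n + 1) ↪ B) := by
    apply Function.Embedding.nonempty_of_card_le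
    rw [Fintype.card_fin, Fintype.card_coe]
    exact hcard
  obtain ⟨f, hf⟩ : ∃ f : Fin (n + 1) ↪ Fin q, ∀ a, f a ∈ B :=
    ⟨e.trans (Function.Embedding.subtype _), fun a => (e a).2⟩
  have h1 := h f
  unfold ren at h1
  rw [eval_rename] at h1
  obtain ⟨i, hi⟩ := hΨ.2 (fun a b => H (f a) b) h1 κ x hx hX
  exact hi (hB (f i) (hf i))

/-- Job GENX -/
theorem genX (hb : HbarXStmt) : GenXStmt := by
  classical
  intro N n r q hn hq 𝓕 h𝓕 Ψ hΨ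
  have h1 : ∀ T : Finset (Fin q) × Finset (Fin q) × Finset (Fin q),
      ∃ Φ : MvPolynomial (Fin q × Fin (N + 1)) ℚ, Φ ≠ 0 ∧ ∀ H : Fin q → Fin (N + 1) → ℚ,
        eval (fun ij => H ij.1 ij.2) Φ ≠ 0 → T.1.Nonempty → T.2.1.card + 1 = n →
          T.2.2.card = T.1.card → Disjoint T.2.1 T.1 → Disjoint T.2.2 T.1 →
          Disjoint T.2.2 T.2.1 → ¬ Bad 𝓕 r T.1 T.2.1 T.2.2 H := by
    rintro ⟨C, A, J⟩
    by_cases hT : C.Nonempty ∧ A.card + 1 = n ∧ J.card = C.card ∧ Disjoint A C ∧ Disjoint J C ∧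
      Disjoint J A
    · obtain ⟨Φ, hΦ, h2⟩ := triple hb N n r q hn hq 𝓕 h𝓕 Ψ hΨ C A J hT.1 hT.2.1 hT.2.2.1
        hT.2.2.2.1 hT.2.2.2.2.1 hT.2.2.2.2.2
      exact ⟨Φ, hΦ, fun H hH _ _ _ _ _ _ => h2 H hH⟩
    · refine ⟨1, one_ne_zero, fun H _ a1 a2 a3 a4 a5 a6 => ?_⟩
      exact absurd ⟨a1, a2, a3, a4, a5, a6⟩ hT
  choose Φ hΦ0 hΦ using h1
  refine ⟨(∏ f : Fin (n + 1) ↪ Fin q, ren Ψ f) * ∏ T, Φ T, ?_, ?_⟩
  · exact mul_ne_zero (Finset.prod_ne_zero_iff.mpr fun f _ => ren_ne hΨ.1 f)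
      (Finset.prod_ne_zero_iff.mpr fun T _ => hΦ0 T)
  · intro H hH
    rw [map_mul, map_prod, map_prod] at hH
    have h2 := Finset.prod_ne_zero_iff.mp (left_ne_zero_of_mul hH)
    have h3 := Finset.prod_ne_zero_iff.mp (right_ne_zero_of_mul hH)
    refine ⟨gpx 𝓕 hΨ H fun f => h2 f (mem_univ _), ?_⟩
    intro C A J hC hA hJ d1 d2 d3 κ hκ hbad
    apply hΦ (C, A, J) H (h3 _ (mem_univ _)) hC hA hJ d1 d2 d3
    refine ⟨κ, hκ, fun j hj => ?_⟩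
    obtain ⟨p, hp0, hpX, hk, hz, hc⟩ := hbad j hj
    refine ⟨p, hp0, hpX, ?_, hz, hc⟩
    obtain ⟨k, hk⟩ := hk
    refine ⟨k, fun i hi => hk i ?_⟩
    rw [Finset.mem_insert] at hi ⊢
    exact hi

end Pool.Agent.Y734.I.GENX
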