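import Pool.Agent.Y734.I.GENX.Core
import Pool.Agent.Y734.I.GEN.Ultra

/-!
Job GENX (helper734, project Y734/I): specialisation along a valuation ring, by helper991;
adapted to points on a projective variety by helper809.
-/

set_option autoImplicit false

namespace Pool.Agent.Y734.I.GENX

open Pool.Agent.Y734 Pool.Agent.Y734.I MvPolynomial Finset Pool.Agent.Y660.QP

/-- the negation of the condition of `GenPX` -/
def Bad {N q : ℕ} (𝓕 : Set (MvPolynomial (Fin (N + 1)) ℚ)) (r : ℕ) (C A J : Finset (Fin q))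
    (H : Fin q → Fin (N + 1) → ℚ) : Prop :=
  ∃ κ : Fin q → ℚ, (∀ i ∈ C, κ i ≠ 0) ∧
    ∀ j ∈ J, ∃ p : Fin r → Fin (N + 1) → ℂ, (∀ k, p k ≠ 0) ∧ (∀ k, OnX 𝓕 (p k)) ∧
        (∃ k, ∀ i ∈ insert j A, ev (H i) (p k) = 0) ∧ (∀ i ∉ C, nf H p i = 0) ∧
        ∃ c : ℂ, c ≠ 0 ∧ ∀ i ∈ C, nf H p i = c * (κ i : ℂ)

theorem triple (hbar : HbarXStmt) (N n r q : ℕ) (hn : 2 ≤ n) (hq : r * n + 2 ≤ q)
    (𝓕 : Set (MvPolynomial (Fin (N + 1)) ℚ)) (h𝓕 : ∀ F ∈ 𝓕, ∃ d, F.IsHomogeneous d)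
    (Ψ₀ : MvPolynomial (Fin (n + 1) × Fin (N + 1)) ℚ) (hΨ₀ : Psi n 𝓕 Ψ₀)
    (C A J : Finset (Fin q)) (hC : C.Nonempty) (hA : A.card + 1 = n) (hJC : J.card = C.card)
    (d1 : Disjoint A C) (d2 : Disjoint J C) (d3 : Disjoint J A) :
    ∃ Φ : MvPolynomial (Fin q × Fin (N + 1)) ℚ, Φ ≠ 0 ∧ ∀ H : Fin q → Fin (N + 1) → ℚ,
      eval (fun ij => H ij.1 ij.2) Φ ≠ 0 → ¬ Bad 𝓕 r C A J H := by
  classical
  by_contra hcon
  push Not at hcon
  obtain ⟨φ, hφ⟩ := GEN.ex_bij C J hJC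
  obtain ⟨Hb, hHb1, hHb2⟩ := hbar N n r q hn hq 𝓕 Ψ₀ hΨ₀ C A J hA d1 d2 d3 φ hφ
  -- the sequence
  have hcount : Countable (MvPolynomial (Fin q × Fin (N + 1)) ℚ) := by
    rw [← Cardinal.mk_le_aleph0_iff]
    refine MvPolynomial.cardinalMk_le_max.trans ?_
    exact max_le (max_le Cardinal.mk_le_aleph0 Cardinal.mk_le_aleph0) le_rfl
  obtain ⟨e, he⟩ := exists_surjective_nat (MvPolynomial (Fin q × Fin (N + 1)) ℚ)
  obtain ⟨Ψ, hΨ⟩ : ∃ Ψ : ℕ → MvPolynomial (Fin q × Fin (N + 1)) ℚ,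
    Ψ = fun t => ∏ s ∈ range (t + 1), if e s = 0 then 1 else e s := ⟨_, rfl⟩
  have hΨ0 : ∀ t, Ψ t ≠ 0 := by
    intro t
    rw [hΨ]
    apply Finset.prod_ne_zero_iff.mpr
    intro s _
    split_ifs with h
    · exact one_ne_zero
    · exact h
  choose H hH hbad using fun t => hcon (Ψ t) (hΨ0 t)
  have hgen : ∀ Φ : MvPolynomial (Fin q × Fin (N + 1)) ℚ, Φ ≠ 0 →
      ∀ᶠ t in Filter.atTop, eval (fun ij => H t ij.1 ij.2) Φ ≠ 0 := by
    intro Φ hΦ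
    obtain ⟨s, rfl⟩ := he Φ
    filter_upwards [Filter.eventually_ge_atTop s] with t ht h0
    apply hH t
    rw [hΨ]
    simp only
    rw [map_prod]
    apply Finset.prod_eq_zero (i := s) (mem_range.mpr (by omega))
    rw [if_neg hΦ, h0]
  -- germs
  let U : Ultrafilter ℕ := Filter.hyperfilter ℕ
  have hU : (U : Filter ℕ) ≤ Filter.atTop := Nat.hyperfilter_le_atTop
  obtain ⟨Ω, _, _, ⟨g⟩⟩ := ex_gm U
  obtain ⟨h, hh⟩ : ∃ h : Fin q × Fin (N + 1) → Ω,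
    h = fun ij => g.π (fun t => ((H t ij.1 ij.2 : ℚ) : ℂ)) := ⟨_, rfl⟩
  have hinj : Function.Injective (aeval (R := ℚ) h) := by
    rw [injective_iff_map_eq_zero]
    intro Φ hΦ
    by_contra h0
    rw [hh, GEN.gm_aeval g (fun t ij => H t ij.1 ij.2) Φ, g.ker] at hΦ
    obtain ⟨t, ht1, ht2⟩ := (hΦ.and (hU (hgen Φ h0))).exists
    exact ht2 (by exact_mod_cast ht1)
  obtain ⟨V, hV1, hV2⟩ := GEN.ex_val h hinj (fun ij => Hb ij.1 ij.2)
  have hbad' : ∀ t, ∃ κ : Fin q → ℚ, (∀ i ∈ C, κ i ≠ 0) ∧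
    ∀ j ∈ J, ∃ p : Fin r → Fin (N + 1) → ℂ, (∀ k, p k ≠ 0) ∧ (∀ k, OnX 𝓕 (p k)) ∧
        (∃ k, ∀ i ∈ insert j A, ev (H t i) (p k) = 0) ∧ (∀ i ∉ C, nf (H t) p i = 0) ∧
        ∃ c : ℂ, c ≠ 0 ∧ ∀ i ∈ C, nf (H t) p i = c * (κ i : ℂ) := hbad
  choose κ hκ0 hκ using hbad'
  obtain ⟨K, hK⟩ : ∃ K : Fin q → Ω, K = fun i => g.π (fun t => ((κ t i : ℚ) : ℂ)) := ⟨_, rfl⟩
  obtain ⟨i₀, hi₀, hmax⟩ := C.exists_max_image (fun i => V.valuation (K i)) hC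
  obtain ⟨j, hj, hji⟩ := hφ.surjOn hi₀
  have hj' : j ∈ J := hj
  have hx : ∀ t, ∃ p : Fin r → Fin (N + 1) → ℂ, (∀ k, p k ≠ 0) ∧ (∀ k, OnX 𝓕 (p k)) ∧
        (∃ k, ∀ i ∈ insert j A, ev (H t i) (p k) = 0) ∧ (∀ i ∉ C, nf (H t) p i = 0) ∧
        ∃ c : ℂ, c ≠ 0 ∧ ∀ i ∈ C, nf (H t) p i = c * (κ t i : ℂ) := fun t => hκ t j hj'
  choose p hp0 hpX hx2 using hx
  have hx3 : ∀ t, ∃ k, ∀ i ∈ insert j A, ev (H t i) (p t k) = 0 := fun t => (hx2 t).1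
  choose k hk using hx3
  have hz : ∀ t, ∀ i ∉ C, nf (H t) (p t) i = 0 := fun t => (hx2 t).2.1
  have hx4 : ∀ t, ∃ c : ℂ, ∀ i ∈ C, nf (H t) (p t) i = c * (κ t i : ℂ) := fun t => by
    obtain ⟨c, _, hc⟩ := (hx2 t).2.2
    exact ⟨c, hc⟩
  choose c hc using hx4
  -- the index of the special point
  obtain ⟨k₀, hk₀⟩ : ∃ k₀, ∀ᶠ t in (U : Filter ℕ), k t = k₀ := by
    rw [← Ultrafilter.eventually_exists_iff]
    exact Filter.Eventually.of_forall fun t => ⟨k t, rfl⟩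
  obtain ⟨P, hP⟩ : ∃ P : Fin r → Fin (N + 1) → Ω, P = fun k l => g.π (fun t => p t k l) :=
    ⟨_, rfl⟩
  have hev : ∀ i k, ∑ l, h (i, l) * P k l = g.π (fun t => ev (H t i) (p t k)) := by
    intro i k
    have e1 : (fun t => ev (H t i) (p t k)) =
        ∑ l, (fun t => ((H t i l : ℚ) : ℂ)) * (fun t => p t k l) := by
      funext t
      unfold ev
      simp
    rw [e1, map_sum]
    apply Finset.sum_congr rfl
    intro l _
    rw [map_mul, hh, hP]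
  have hnf : ∀ i, ∏ k, ∑ l, h (i, l) * P k l = g.π (fun t => nf (H t) (p t) i) := by
    intro i
    have e1 : (fun t => nf (H t) (p t) i) = ∏ k, (fun t => ev (H t i) (p t k)) := by
      funext t
      unfold nf
      simp
    rw [e1, map_prod]
    apply Finset.prod_congr rfl
    intro k _
    rw [hev]
  refine core V hV1 h𝓕 Hb (fun κ _ _ p hp hpX => hHb2 κ p hp hpX) (fun i l => h (i, l))
    (fun i l => hV2 (i, l)) C (insert j A) P ?_ ?_ (g.π c) K i₀ hi₀ hmax ?_ ?_ k₀ ?_ ?_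
  · intro k h0
    have h1 : ∀ l, ∀ᶠ t in (U : Filter ℕ), p t k l = 0 := by
      intro l
      rw [← g.ker]
      have := congrFun h0 l
      rw [hP] at this
      exact this
    obtain ⟨t, ht⟩ := (Filter.eventually_all.mpr h1).exists
    exact hp0 t k (funext ht)
  · intro k F hF
    have h1 : aeval (P k) F = g.π (fun t => aeval (p t k) F) := by
      rw [hP]
      exact g.aeval (fun t => p t k) F
    rw [h1, g.ker]
    exact Filter.Eventually.of_forall fun t => hpX t k F hF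
  · intro i hi
    rw [hnf, g.ker]
    exact Filter.Eventually.of_forall fun t => hz t i hi
  · intro i hi
    rw [hnf, hK, ← map_mul, g.eq_iff]
    exact Filter.Eventually.of_forall fun t => hc t i hi
  · intro i hi
    rw [hev, g.ker]
    filter_upwards [hk₀] with t ht
    rw [← ht]
    exact hk t i hi
  · rw [← hji]
    exact hHb1 j hj'

end Pool.Agent.Y734.I.GENX
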